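import Pool.Agent.Y283.NK.Stm2
import Pool.Agent.Y779.NK.CIRC

/-!
# Almost every radius is good
-/

set_option autoImplicit false

namespace Pool.Agent.Y708.NK

open MeasureTheory Set Metric Filter Topology Pool.Agent.Y283.NK
open scoped InnerProductSpace ENNReal NNReal ComplexConjugate

section

variable {S : Type} [MeasurableSpace S] {μ : Measure S}

theorem lint_sq (f : Lp ℂ 2 μ) : ∫⁻ s, ‖f s‖ₑ ^ 2 ∂μ = ENNReal.ofReal (‖f‖ ^ 2) := by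
  have h1 := eLpNorm_nnreal_pow_eq_lintegral (f := f) (μ := μ) (p := 2) (by norm_num)
  have h2 : eLpNorm f ((2 : ℝ≥0) : ℝ≥0∞) μ = ‖f‖ₑ := (Lp.enorm_def f).symm
  rw [h2] at h1
  have e1 : ∀ a : ℝ≥0∞, a ^ (((2 : ℝ≥0)) : ℝ) = a ^ 2 := by
    intro a
    rw [← ENNReal.rpow_natCast]
    norm_num
  simp only [e1] at h1
  rw [← h1, ← ofReal_norm, ENNReal.ofReal_pow (norm_nonneg _)]

/-- the weight -/
noncomputable def wt (x : Lp ℂ 2 μ) (u : ℕ → Lp ℂ 2 μ) (s : S) : ℝ≥0∞ :=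
  ‖x s‖ₑ ^ 2 + ∑' j, ‖u j s‖ₑ ^ 2

theorem meas_sq (f : Lp ℂ 2 μ) : Measurable fun s => ‖f s‖ₑ ^ 2 :=
  ((Lp.stronglyMeasurable f).measurable.enorm).pow_const _

theorem meas_wt (x : Lp ℂ 2 μ) (u : ℕ → Lp ℂ 2 μ) : Measurable (wt x u) := by
  unfold wt
  exact (meas_sq x).add (Measurable.tsum fun j => meas_sq (u j))

theorem int_wt (x : Lp ℂ 2 μ) (u : ℕ → Lp ℂ 2 μ) (hu : Summable fun j => ‖u j‖ ^ 2) :
    ∫⁻ s, wt x u s ∂μ ≠ ⊤ := by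
  unfold wt
  rw [lintegral_add_left (meas_sq x), lintegral_tsum fun j => (meas_sq (u j)).aemeasurable]
  simp only [lint_sq]
  rw [← ENNReal.ofReal_tsum_of_nonneg (fun j => by positivity) hu]
  exact ENNReal.add_ne_top.2 ⟨ENNReal.ofReal_ne_top, ENNReal.ofReal_ne_top⟩

theorem meas_ker (φ : S → ℂ) (hφ : Measurable φ) (c : ℂ) :
    Measurable fun p : (ℝ × S) × ℝ => ‖circleMap c p.1.1 p.2 - φ p.1.2‖ₑ⁻¹ := by
  have h1 : Measurable fun p : (ℝ × S) × ℝ => circleMap c p.1.1 p.2 := by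
    unfold circleMap
    fun_prop
  exact ((h1.sub (hφ.comp (measurable_snd.comp measurable_fst))).enorm).inv

theorem meas_el (φ : S → ℂ) (hφ : Measurable φ) (c : ℂ) :
    Measurable fun p : ℝ × S => el φ c p.1 p.2 := by
  unfold el
  exact Measurable.lintegral_prod_right'
    (f := fun p : (ℝ × S) × ℝ => ‖circleMap c p.1.1 p.2 - φ p.1.2‖ₑ⁻¹) (meas_ker φ hφ c)

theorem le_one_add_sq (a : ℝ≥0∞) : a ≤ 1 + a ^ 2 := by
  rcases le_total a 1 with h | h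
  · exact h.trans le_self_add
  · calc a = a * 1 := (mul_one a).symm
      _ ≤ a * a := by gcongr
      _ = a ^ 2 := (sq a).symm
      _ ≤ 1 + a ^ 2 := le_add_self

theorem ea_sum (φ : S → ℂ) (hφ : Measurable φ) (x : Lp ℂ 2 μ) (u : ℕ → Lp ℂ 2 μ) (z : ℂ) :
    ea φ x z + ∑' j, ea φ (u j) z = ∫⁻ s, wt x u s * ‖z - φ s‖ₑ⁻¹ ∂μ := by
  have hk : Measurable fun s => ‖z - φ s‖ₑ⁻¹ := ((hφ.const_sub z).enorm).inv
  have hm : ∀ f : Lp ℂ 2 μ, Measurable fun s => ‖f s‖ₑ ^ 2 * ‖z - φ s‖ₑ⁻¹ := fun f =>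
    (meas_sq f).mul hk
  have h1 : ∑' j, ea φ (u j) z = ∫⁻ s, ∑' j, ‖u j s‖ₑ ^ 2 * ‖z - φ s‖ₑ⁻¹ ∂μ :=
    (lintegral_tsum fun j => (hm (u j)).aemeasurable).symm
  rw [h1]
  unfold ea
  rw [← lintegral_add_left (hm x)]
  refine lintegral_congr fun s => ?_
  rw [ENNReal.tsum_mul_right, ← add_mul]
  rfl

theorem sw0 [SigmaFinite μ] (I : Set ℝ) (w : S → ℝ≥0∞) (hw : Measurable w)
    (F : ℝ × S → ℝ≥0∞) (hF : Measurable F) :
    ∫⁻ θ in I, (∫⁻ s, w s * F (θ, s) ∂μ) = ∫⁻ s, w s * (∫⁻ θ in I, F (θ, s)) ∂μ := by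
  have h1 : ∫⁻ θ in I, (∫⁻ s, w s * F (θ, s) ∂μ) = ∫⁻ s, (∫⁻ θ in I, w s * F (θ, s)) ∂μ :=
    lintegral_lintegral_swap (f := fun θ s => w s * F (θ, s))
      ((hw.comp measurable_snd).mul hF).aemeasurable
  rw [h1]
  refine lintegral_congr fun s => ?_
  have h2 : Measurable fun θ : ℝ => F (θ, s) := hF.comp (measurable_id.prodMk measurable_const)
  exact lintegral_const_mul (w s) h2

theorem swap2 [SigmaFinite μ] (φ : S → ℂ) (hφ : Measurable φ) (x : Lp ℂ 2 μ)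
    (u : ℕ → Lp ℂ 2 μ) (κ : ℝ → ℂ) (hκ : Measurable κ) :
    ∫⁻ θ in Ioc (0:ℝ) (2 * Real.pi), (ea φ x (κ θ) + ∑' j, ea φ (u j) (κ θ)) =
      ∫⁻ s, wt x u s * (∫⁻ θ in Ioc (0:ℝ) (2 * Real.pi), ‖κ θ - φ s‖ₑ⁻¹) ∂μ := by
  have hk : Measurable fun p : ℝ × S => ‖κ p.1 - φ p.2‖ₑ⁻¹ :=
    (((hκ.comp measurable_fst).sub (hφ.comp measurable_snd)).enorm).inv
  have e1 : (∫⁻ θ in Ioc (0:ℝ) (2 * Real.pi), (ea φ x (κ θ) + ∑' j, ea φ (u j) (κ θ))) =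
      ∫⁻ θ in Ioc (0:ℝ) (2 * Real.pi), (∫⁻ s, wt x u s * ‖κ θ - φ s‖ₑ⁻¹ ∂μ) :=
    lintegral_congr fun θ => ea_sum φ hφ x u _
  rw [e1]
  exact sw0 (μ := μ) (Ioc (0:ℝ) (2 * Real.pi)) (wt x u) (meas_wt x u)
    (fun p : ℝ × S => ‖κ p.1 - φ p.2‖ₑ⁻¹) hk

end

theorem main : S_RAD := by
  intro S _ μ _ φ hφ u x c ρ hρ hu
  obtain ⟨C, hC⟩ := Pool.Agent.Y779.NK.main ρ hρ
  have hW := int_wt x u hu
  have hmW := meas_wt x u
  have hel := meas_el φ hφ c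
  have hf : Measurable fun p : ℝ × S => wt x u p.2 * (el φ c p.1 p.2) ^ 2 :=
    (hmW.comp measurable_snd).mul (hel.pow_const _)
  have hswap : ∫⁻ r in Ioc (ρ / 2) ρ, ∫⁻ s, wt x u s * (el φ c r s) ^ 2 ∂μ =
      ∫⁻ s, (∫⁻ r in Ioc (ρ / 2) ρ, wt x u s * (el φ c r s) ^ 2) ∂μ :=
    lintegral_lintegral_swap (f := fun r s => wt x u s * (el φ c r s) ^ 2) hf.aemeasurable
  have hint : ∫⁻ r in Ioc (ρ / 2) ρ, ∫⁻ s, wt x u s * (el φ c r s) ^ 2 ∂μ ≠ ⊤ := by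
    rw [hswap]
    have h1 : ∫⁻ s, (∫⁻ r in Ioc (ρ / 2) ρ, wt x u s * (el φ c r s) ^ 2) ∂μ ≤
        ∫⁻ s, wt x u s * C ∂μ := by
      refine lintegral_mono fun s => ?_
      have h2 : Measurable fun r : ℝ => (el φ c r s) ^ 2 :=
        (hel.comp (measurable_id.prodMk measurable_const)).pow_const _
      show ∫⁻ r in Ioc (ρ / 2) ρ, wt x u s * (el φ c r s) ^ 2 ≤ wt x u s * C
      rw [lintegral_const_mul _ h2]
      exact mul_le_mul' le_rfl (hC c (φ s))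
    rw [lintegral_mul_const _ hmW] at h1
    exact ne_top_of_le_ne_top (ENNReal.mul_ne_top hW ENNReal.coe_ne_top) h1
  have hmr : Measurable fun r : ℝ => ∫⁻ s, wt x u s * (el φ c r s) ^ 2 ∂μ :=
    Measurable.lintegral_prod_right' (f := fun p : ℝ × S => wt x u p.2 * (el φ c p.1 p.2) ^ 2) hf
  filter_upwards [ae_lt_top hmr hint] with r hr
  refine ⟨hr.ne, ?_⟩
  have h1 : (∫⁻ θ in Ioc (0:ℝ) (2 * Real.pi), (ea φ x (circleMap c r θ) +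
      ∑' j, ea φ (u j) (circleMap c r θ))) = ∫⁻ s, wt x u s * el φ c r s ∂μ := by
    have hκ : Measurable (circleMap c r) := (continuous_circleMap c r).measurable
    exact swap2 φ hφ x u (circleMap c r) hκ
  rw [h1]
  have h3 : ∫⁻ s, wt x u s * el φ c r s ∂μ ≤
      ∫⁻ s, (wt x u s + wt x u s * (el φ c r s) ^ 2) ∂μ := by
    refine lintegral_mono fun s => ?_
    show wt x u s * el φ c r s ≤ wt x u s + wt x u s * (el φ c r s) ^ 2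
    calc wt x u s * el φ c r s ≤ wt x u s * (1 + (el φ c r s) ^ 2) :=
          mul_le_mul' le_rfl (le_one_add_sq _)
      _ = _ := by rw [mul_add, mul_one]
  rw [lintegral_add_left hmW] at h3
  exact ne_top_of_le_ne_top (ENNReal.add_ne_top.2 ⟨hW, hr.ne⟩) h3

end Pool.Agent.Y708.NK
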